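import Pool.Agent.Y795.PiH.Stm
import Pool.Agent.Cov.PNT

/-! PH14: primes `≡ 37 (mod 814728)` in `(L, (1+ε) L]`. -/

namespace Pool.Agent.Y301.PiH

open Pool.Agent.Y795.PiH (S_Z)
open Finset Filter Topology
open Pool.Agent.Cov.PNT (pnt_residueClass)
open ArithmeticFunction

theorem psi_theta_tendsto' :
    Tendsto (fun x : ℝ => (Chebyshev.psi x - Chebyshev.theta x) / x) atTop (𝓝 0) := by
  obtain ⟨C, hC⟩ := Chebyshev.psi_sub_theta_le_mul_sqrt
  have h2 : Tendsto (fun x : ℝ => C * (Real.sqrt x)⁻¹) atTop (𝓝 0) := by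
    have := (tendsto_inv_atTop_zero.comp Real.tendsto_sqrt_atTop).const_mul C
    simpa [Function.comp_def] using this
  refine squeeze_zero' ?_ ?_ h2
  · filter_upwards [eventually_gt_atTop 0] with x hx
    exact div_nonneg (sub_nonneg.mpr (Chebyshev.theta_le_psi x)) hx.le
  · filter_upwards [eventually_gt_atTop 0] with x hx
    rw [div_le_iff₀ hx]
    refine (hC x).trans (le_of_eq ?_)
    have hs : 0 < Real.sqrt x := Real.sqrt_pos.mpr hx
    have hx2 : Real.sqrt x * Real.sqrt x = x := Real.mul_self_sqrt hx.le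
    field_simp
    rw [sq, hx2]

/-- The partial sums of the residue class. -/
noncomputable def AS (x : ℝ) : ℝ :=
  ∑ k ∈ Finset.Icc 1 ⌊x⌋₊, vonMangoldt.residueClass (37 : ZMod 814728) k

theorem tot_pos : (0 : ℝ) < (Nat.totient 814728 : ℝ) := by
  exact_mod_cast Nat.totient_pos.2 (by norm_num)

theorem unit37 : IsUnit (37 : ZMod 814728) := by
  have h : IsUnit (((37 : ℕ) : ℕ) : ZMod 814728) := (ZMod.isUnit_iff_coprime 37 814728).2 (by norm_num)
  rwa [Nat.cast_ofNat] at h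

theorem AS_tendsto : Tendsto (fun x : ℝ => AS x / x) atTop (𝓝 ((Nat.totient 814728 : ℝ)⁻¹)) :=
  pnt_residueClass (q := 814728) (a := 37) unit37

/-- If there are no primes of the class in `(L, x]` then the difference of the sums is small. -/
theorem AS_sub {L x : ℝ} (hL : 0 ≤ L) (hLx : L ≤ x)
    (h : ∀ p : ℕ, p.Prime → p % 814728 = 37 → L < p → x < p) :
    AS x - AS L ≤ Chebyshev.psi x - Chebyshev.theta x := by
  have hfl : ⌊L⌋₊ ≤ ⌊x⌋₊ := Nat.floor_le_floor hLx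
  have e1 : AS x - AS L = ∑ k ∈ Finset.Ioc ⌊L⌋₊ ⌊x⌋₊, vonMangoldt.residueClass (37 : ZMod 814728) k := by
    unfold AS
    have h1 : Finset.Icc 1 ⌊x⌋₊ = Finset.Icc 1 ⌊L⌋₊ ∪ Finset.Ioc ⌊L⌋₊ ⌊x⌋₊ := by
      ext k
      simp only [mem_union, mem_Icc, mem_Ioc]
      omega
    have h2 : Disjoint (Finset.Icc 1 ⌊L⌋₊) (Finset.Ioc ⌊L⌋₊ ⌊x⌋₊) := by
      rw [Finset.disjoint_left]
      intro k hk hk'
      simp only [mem_Icc, mem_Ioc] at hk hk'
      omega
    rw [h1, sum_union h2]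
    ring
  rw [e1, Chebyshev.psi_sub_theta_eq_sum_not_prime]
  have h3 : ∑ k ∈ Finset.Ioc ⌊L⌋₊ ⌊x⌋₊, vonMangoldt.residueClass (37 : ZMod 814728) k ≤
      ∑ k ∈ Finset.Ioc ⌊L⌋₊ ⌊x⌋₊ with ¬ k.Prime, vonMangoldt k := by
    rw [Finset.sum_filter]
    refine sum_le_sum fun k hk => ?_
    rw [mem_Ioc] at hk
    by_cases hp : k.Prime
    · rw [if_neg (not_not.2 hp)]
      rw [vonMangoldt.residueClass, Set.indicator_of_notMem]
      intro hmem
      have hmem' : ((k : ℕ) : ZMod 814728) = 37 := hmem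
      have hk2 : k % 814728 = 37 := by
        have := ZMod.natCast_eq_natCast_iff' k 37 814728
        rw [Nat.cast_ofNat] at this
        have h5 := this.1 hmem'
        simpa using h5
      have h6 : L < k := (Nat.floor_lt hL).1 hk.1
      have h7 := h k hp hk2 h6
      have h8 : (k : ℝ) ≤ x := (Nat.le_floor_iff (hL.trans hLx)).1 hk.2
      linarith
    · rw [if_pos hp]
      exact vonMangoldt.residueClass_le _ k
  refine h3.trans ?_
  refine sum_le_sum_of_subset_of_nonneg ?_ fun k _ _ => vonMangoldt_nonneg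
  intro k hk
  simp only [mem_filter, mem_Ioc] at hk ⊢
  exact ⟨⟨by omega, hk.1.2⟩, hk.2⟩

theorem Z : S_Z := by
  intro ε hε
  have h1 := AS_tendsto
  have hlin : Tendsto (fun L : ℝ => (1 + ε) * L) atTop atTop :=
    tendsto_id.const_mul_atTop (by linarith)
  obtain ⟨c, hc⟩ : ∃ c : ℝ, c = (Nat.totient 814728 : ℝ)⁻¹ := ⟨_, rfl⟩
  have hc0 : 0 < c := by rw [hc]; exact inv_pos.2 tot_pos
  rw [← hc] at h1
  have h2 : Tendsto (fun L : ℝ => AS ((1 + ε) * L) / ((1 + ε) * L)) atTop (𝓝 c) :=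
    h1.comp hlin
  have h3 : Tendsto (fun L : ℝ => (Chebyshev.psi ((1 + ε) * L) - Chebyshev.theta ((1 + ε) * L)) /
      ((1 + ε) * L)) atTop (𝓝 0) := psi_theta_tendsto'.comp hlin
  have h4 : Tendsto (fun L : ℝ => (1 + ε) * (AS ((1 + ε) * L) / ((1 + ε) * L)) - AS L / L -
      (1 + ε) * ((Chebyshev.psi ((1 + ε) * L) - Chebyshev.theta ((1 + ε) * L)) /
      ((1 + ε) * L))) atTop (𝓝 ((1 + ε) * c - c - (1 + ε) * 0)) :=
    ((h2.const_mul (1 + ε)).sub h1).sub (h3.const_mul (1 + ε))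
  have hpos : 0 < (1 + ε) * c - c - (1 + ε) * 0 := by
    have : (1 + ε) * c - c - (1 + ε) * 0 = ε * c := by ring
    rw [this]
    positivity
  have h5 := h4.eventually (eventually_gt_nhds hpos)
  obtain ⟨L0, hL0⟩ := (h5.and (eventually_gt_atTop 0)).exists_forall_of_atTop
  refine ⟨L0, fun L hL => ?_⟩
  obtain ⟨h6, h7⟩ := hL0 L hL
  by_contra hcon
  push Not at hcon
  have h8 := AS_sub h7.le (by nlinarith : L ≤ (1 + ε) * L) hcon
  have hne : (1 + ε) ≠ 0 := by positivity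
  have h9 : (1 + ε) * (AS ((1 + ε) * L) / ((1 + ε) * L)) - AS L / L -
      (1 + ε) * ((Chebyshev.psi ((1 + ε) * L) - Chebyshev.theta ((1 + ε) * L)) /
      ((1 + ε) * L)) = (AS ((1 + ε) * L) - AS L -
      (Chebyshev.psi ((1 + ε) * L) - Chebyshev.theta ((1 + ε) * L))) / L := by
    field_simp
  rw [h9] at h6
  have h10 := (div_pos_iff_of_pos_right h7).1 h6
  linarith

end Pool.Agent.Y301.PiH
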